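import Pool.Agent.Q190.FE.DEPB

/-!
# Project FE, job AVGB: the average over the signs of the block
-/

set_option autoImplicit false

namespace Pool.Agent.Q190.FE

open Finset Pool.Agent.Q120.ET Pool.Agent.Q120.GM Pool.Agent.Q120.TT Pool.Agent.Q120.FZ Pool.Agent.Q120.FE

theorem lam_mul (S : Set ℕ) {a b : ℕ} (ha : a ≠ 0) (hb : b ≠ 0) :
    lam S (a * b) = lam S a * lam S b := by
  unfold lam
  rw [if_neg (Nat.mul_ne_zero ha hb), if_neg ha, if_neg hb,
    ((Nat.perm_primeFactorsList_mul ha hb).map (sg S)).prod_eq, List.map_append, List.prod_append]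

theorem lam_prime (S : Set ℕ) {p : ℕ} (hp : p.Prime) : lam S p = sg S p := by
  unfold lam
  rw [if_neg hp.ne_zero, Nat.primeFactorsList_prime hp]
  simp

/-- Flipping the sign of a prime dividing exactly once. -/
theorem lam_flip (S : Set ℕ) {p m : ℕ} (hp : p.Prime) (hpS : p ∉ S) (hm : m ≠ 0) (h1 : p ∣ m)
    (h2 : ¬ p ^ 2 ∣ m) : lam (insert p S) m = - lam S m := by
  obtain ⟨c, rfl⟩ := h1
  have hc : c ≠ 0 := by rintro rfl; exact hm (mul_zero _)
  have hpc : ¬ p ∣ c := by
    intro h3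
    apply h2
    rw [pow_two]
    exact Nat.mul_dvd_mul_left p h3
  rw [lam_mul _ hp.ne_zero hc, lam_mul _ hp.ne_zero hc, lam_prime _ hp, lam_prime _ hp]
  have h3 : lam (insert p S) c = lam S c := by
    apply lam_congr
    intro q hq
    have hqp : q ≠ p := by
      rintro rfl
      exact hpc (Nat.dvd_of_mem_primeFactors hq)
    simp [hqp]
  rw [h3]
  unfold sg
  rw [if_pos (Set.mem_insert _ _), if_neg hpS]
  ring

theorem cor_flip (S : Set ℕ) (h : Finset ℕ) {p n j : ℕ} (hp : p.Prime) (hpS : p ∉ S) (hn : 1 ≤ n)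
    (hj : j ∈ h) (h1 : p ∣ n + j) (h2 : ¬ p ^ 2 ∣ n + j) (h3 : ∀ l ∈ h, l ≠ j → ¬ p ∣ n + l) :
    cor (insert p S) h n = - cor S h n := by
  unfold cor
  rw [← Finset.mul_prod_erase h _ hj, ← Finset.mul_prod_erase h _ hj,
    lam_flip S hp hpS (by omega) h1 h2, neg_mul]
  congr 2
  apply Finset.prod_congr rfl
  intro l hl
  rw [Finset.mem_erase] at hl
  apply lam_congr
  intro q hq
  have hqp : q ≠ p := by
    rintro rfl
    exact h3 l hl.2 hl.1 (Nat.dvd_of_mem_primeFactors hq)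
  simp [hqp]

/-- The average vanishes. -/
theorem avg_zero (h : Finset ℕ) {i p n j : ℕ} (T₀ : Finset ℕ) (hT : T₀ ⊆ pl i) (hp : p ∈ pb i)
    (hn : 1 ≤ n) (hj : j ∈ h) (h1 : p ∣ n + j) (h2 : ¬ p ^ 2 ∣ n + j)
    (h3 : ∀ l ∈ h, l ≠ j → ¬ p ∣ n + l) :
    ∑ T₁ ∈ (pb i).powerset, cor ((T₀ ∪ T₁ : Finset ℕ) : Set ℕ) h n = 0 := by
  have hpT : p ∉ T₀ := by
    intro h4
    have h5 := hT h4
    unfold pl at h5
    rw [Finset.mem_filter, Finset.mem_range] at h5
    rw [mem_pb] at hp
    omega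
  rw [← Finset.insert_erase hp, Finset.sum_powerset_insert (Finset.notMem_erase p _),
    ← Finset.sum_add_distrib]
  apply Finset.sum_eq_zero
  intro T hTm
  rw [Finset.mem_powerset] at hTm
  have hpT1 : p ∉ T := fun h4 => (Finset.notMem_erase p _) (hTm h4)
  have h4 : ((T₀ ∪ insert p T : Finset ℕ) : Set ℕ) = insert p ((T₀ ∪ T : Finset ℕ) : Set ℕ) := by
    rw [Finset.union_insert, Finset.coe_insert]
  rw [h4, cor_flip _ h (mem_pb.1 hp).2 _ hn hj h1 h2 h3, add_neg_cancel]
  rw [Finset.mem_coe, Finset.mem_union]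
  tauto

/-- A prime of the block divides one of the numbers. -/
theorem exists_prime {h : Finset ℕ} {n i : ℕ} (hi : 1 ≤ i) (hb : bi h n = i) :
    ∃ j ∈ h, ∃ p ∈ pb i, p ∣ n + j := by
  unfold bi at hb
  have hne : h.Nonempty := by
    rw [Finset.nonempty_iff_ne_empty]
    rintro rfl
    simp at hb
    omega
  obtain ⟨j, hj, hj2⟩ := Finset.exists_mem_eq_sup h hne
    (fun j => (n + j).primeFactors.sup (Nat.log 2))
  rw [hb] at hj2
  have hne2 : (n + j).primeFactors.Nonempty := by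
    rw [Finset.nonempty_iff_ne_empty]
    intro h0
    simp only [h0, Finset.sup_empty, Nat.bot_eq_zero] at hj2
    omega
  obtain ⟨p, hp, hp2⟩ := Finset.exists_mem_eq_sup (n + j).primeFactors hne2 (Nat.log 2)
  rw [hp2] at hj2
  refine ⟨j, hj, p, ?_, Nat.dvd_of_mem_primeFactors hp⟩
  have hpp := Nat.prime_of_mem_primeFactors hp
  rw [mem_pb]
  refine ⟨?_, hpp⟩
  constructor
  · rw [hj2]; exact Nat.pow_log_le_self 2 hpp.ne_zero
  · rw [hj2]; exact Nat.lt_pow_succ_log_self (by norm_num) p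

/-- The number of multiples, second form. -/
theorem count2 {d D x j : ℕ} (hD : 0 < D) (hd : D ≤ d) (hj : j ≤ x) :
    ((((Icc 1 x).filter (fun n => d ∣ n + j)).card : ℕ) : ℝ) ≤ 3 * x / D := by
  have hd0 : 0 < d := lt_of_lt_of_le hD hd
  have hDr : (0 : ℝ) < D := by exact_mod_cast hD
  have hdr : (0 : ℝ) < d := by exact_mod_cast hd0
  have hDd : (D : ℝ) ≤ d := by exact_mod_cast hd
  have h1 : (3 * x : ℝ) / d ≤ 3 * x / D :=
    div_le_div_of_nonneg_left (by positivity) hDr hDd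
  refine le_trans ?_ h1
  by_cases h2 : d ≤ 2 * x
  · refine le_trans (count_dvd d x j hd0) ?_
    have h3 : (d : ℝ) ≤ 2 * x := by exact_mod_cast h2
    rw [le_div_iff₀ hdr, add_mul, div_mul_cancel₀ _ hdr.ne']
    linarith
  · have h3 : (Icc 1 x).filter (fun n => d ∣ n + j) = ∅ := by
      apply Finset.filter_eq_empty_iff.2
      intro n hn hdn
      rw [Finset.mem_Icc] at hn
      have := Nat.le_of_dvd (by omega) hdn
      omega
    rw [h3, Finset.card_empty, Nat.cast_zero]
    positivity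

theorem card_primeFactors_le {m x : ℕ} (hm : m ≠ 0) (hx : m ≤ x) :
    m.primeFactors.card ≤ Nat.log 2 x := by
  have h1 : 2 ^ m.primeFactors.card ≤ m := by
    calc 2 ^ m.primeFactors.card ≤ ∏ p ∈ m.primeFactors, p :=
          Finset.pow_card_le_prod _ _ _ (fun p hp => (Nat.prime_of_mem_primeFactors hp).two_le)
      _ ≤ m := Nat.le_of_dvd (Nat.pos_of_ne_zero hm) (Nat.prod_primeFactors_dvd m)
  exact Nat.le_log_of_pow_le (by norm_num) (le_trans h1 hx)

theorem card_pb_le (i : ℕ) : (pb i).card ≤ 2 ^ i := by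
  unfold pb block
  refine le_trans (Finset.card_filter_le _ _) ?_
  rw [Nat.card_Ico, pow_succ]
  omega

/-- The exceptional numbers: a square divides. -/
def E1 (h : Finset ℕ) (x i : ℕ) : Finset ℕ :=
  h.biUnion (fun j => (pb i).biUnion (fun p => (Icc 1 x).filter (fun n => p ^ 2 ∣ n + j)))

/-- The exceptional numbers: a prime divides two of the numbers. -/
def E2 (h : Finset ℕ) (x i : ℕ) : Finset ℕ :=
  h.biUnion (fun j => (h.erase j).biUnion (fun l =>
    ((Nat.dist j l).primeFactors ∩ pb i).biUnion (fun p => (Icc 1 x).filter (fun n => p ∣ n + j))))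

theorem card_E1 (h : Finset ℕ) (x i : ℕ) (hh : ∀ j ∈ h, j ≤ x) :
    ((E1 h x i).card : ℝ) ≤ h.card * (3 * x / 2 ^ i) := by
  have h4 : (0 : ℝ) < 4 ^ i := by positivity
  have h1 : ∀ j ∈ h, ((((pb i).biUnion (fun p => (Icc 1 x).filter (fun n => p ^ 2 ∣ n + j))).card : ℕ) : ℝ)
      ≤ 3 * x / 2 ^ i := by
    intro j hj
    calc ((((pb i).biUnion (fun p => (Icc 1 x).filter (fun n => p ^ 2 ∣ n + j))).card : ℕ) : ℝ)
        ≤ ∑ p ∈ pb i, ((((Icc 1 x).filter (fun n => p ^ 2 ∣ n + j)).card : ℕ) : ℝ) := by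
          exact_mod_cast Finset.card_biUnion_le
      _ ≤ ∑ p ∈ pb i, (3 * x / (4 ^ i : ℝ)) := by
          apply Finset.sum_le_sum
          intro p hp
          rw [mem_pb] at hp
          have h5 : 4 ^ i ≤ p ^ 2 := by
            calc 4 ^ i = (2 ^ i) ^ 2 := by rw [← pow_mul, mul_comm, pow_mul]; norm_num
              _ ≤ p ^ 2 := Nat.pow_le_pow_left hp.1.1 2
          have h6 := count2 (d := p ^ 2) (D := 4 ^ i) (by positivity) h5 (hh j hj)
          push_cast at h6
          exact h6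
      _ = (pb i).card * (3 * x / (4 ^ i : ℝ)) := by rw [Finset.sum_const, nsmul_eq_mul]
      _ ≤ 2 ^ i * (3 * x / (4 ^ i : ℝ)) := by
          apply mul_le_mul_of_nonneg_right _ (by positivity)
          exact_mod_cast card_pb_le i
      _ = 3 * x / 2 ^ i := by
          have : (4 : ℝ) ^ i = 2 ^ i * 2 ^ i := by rw [← mul_pow]; norm_num
          rw [this]
          field_simp
  calc ((E1 h x i).card : ℝ) ≤ ∑ j ∈ h,
        ((((pb i).biUnion (fun p => (Icc 1 x).filter (fun n => p ^ 2 ∣ n + j))).card : ℕ) : ℝ) := by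
          unfold E1
          exact_mod_cast Finset.card_biUnion_le
    _ ≤ ∑ j ∈ h, (3 * x / (2 ^ i : ℝ)) := Finset.sum_le_sum h1
    _ = _ := by rw [Finset.sum_const, nsmul_eq_mul]

theorem card_E2 (h : Finset ℕ) (x i : ℕ) (hh : ∀ j ∈ h, j ≤ x) :
    ((E2 h x i).card : ℝ) ≤ h.card * (h.card * (Nat.log 2 x * (3 * x / 2 ^ i))) := by
  have h1 : ∀ j ∈ h, ∀ l ∈ h.erase j, (((((Nat.dist j l).primeFactors ∩ pb i).biUnion
      (fun p => (Icc 1 x).filter (fun n => p ∣ n + j))).card : ℕ) : ℝ)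
      ≤ Nat.log 2 x * (3 * x / 2 ^ i) := by
    intro j hj l hl
    rw [Finset.mem_erase] at hl
    have hjx := hh j hj
    have hlx := hh l hl.2
    have hd0 : Nat.dist j l ≠ 0 := by
      intro h0
      exact hl.1 (Nat.eq_of_dist_eq_zero h0).symm
    have hdx : Nat.dist j l ≤ x := by
      unfold Nat.dist
      omega
    calc (((((Nat.dist j l).primeFactors ∩ pb i).biUnion
          (fun p => (Icc 1 x).filter (fun n => p ∣ n + j))).card : ℕ) : ℝ)
        ≤ ∑ p ∈ (Nat.dist j l).primeFactors ∩ pb i,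
          ((((Icc 1 x).filter (fun n => p ∣ n + j)).card : ℕ) : ℝ) := by
          exact_mod_cast Finset.card_biUnion_le
      _ ≤ ∑ p ∈ (Nat.dist j l).primeFactors ∩ pb i, (3 * x / (2 ^ i : ℝ)) := by
          apply Finset.sum_le_sum
          intro p hp
          rw [Finset.mem_inter, mem_pb] at hp
          have h6 := count2 (d := p) (D := 2 ^ i) (by positivity) hp.2.1.1 hjx
          push_cast at h6
          exact h6
      _ = ((Nat.dist j l).primeFactors ∩ pb i).card * (3 * x / (2 ^ i : ℝ)) := by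
          rw [Finset.sum_const, nsmul_eq_mul]
      _ ≤ Nat.log 2 x * (3 * x / 2 ^ i) := by
          apply mul_le_mul_of_nonneg_right _ (by positivity)
          exact_mod_cast le_trans (Finset.card_le_card Finset.inter_subset_left)
            (card_primeFactors_le hd0 hdx)
  have h2 : ∀ j ∈ h, ((((h.erase j).biUnion (fun l =>
      ((Nat.dist j l).primeFactors ∩ pb i).biUnion
      (fun p => (Icc 1 x).filter (fun n => p ∣ n + j)))).card : ℕ) : ℝ)
      ≤ h.card * (Nat.log 2 x * (3 * x / 2 ^ i)) := by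
    intro j hj
    calc ((((h.erase j).biUnion (fun l => ((Nat.dist j l).primeFactors ∩ pb i).biUnion
          (fun p => (Icc 1 x).filter (fun n => p ∣ n + j)))).card : ℕ) : ℝ)
        ≤ ∑ l ∈ h.erase j, (((((Nat.dist j l).primeFactors ∩ pb i).biUnion
          (fun p => (Icc 1 x).filter (fun n => p ∣ n + j))).card : ℕ) : ℝ) := by
          exact_mod_cast Finset.card_biUnion_le
      _ ≤ ∑ l ∈ h.erase j, (Nat.log 2 x * (3 * x / 2 ^ i) : ℝ) := Finset.sum_le_sum (h1 j hj)
      _ = (h.erase j).card * (Nat.log 2 x * (3 * x / 2 ^ i) : ℝ) := by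
          rw [Finset.sum_const, nsmul_eq_mul]
      _ ≤ h.card * (Nat.log 2 x * (3 * x / 2 ^ i)) := by
          apply mul_le_mul_of_nonneg_right _ (by positivity)
          exact_mod_cast Finset.card_le_card (Finset.erase_subset _ _)
  calc ((E2 h x i).card : ℝ) ≤ ∑ j ∈ h, ((((h.erase j).biUnion (fun l =>
      ((Nat.dist j l).primeFactors ∩ pb i).biUnion
      (fun p => (Icc 1 x).filter (fun n => p ∣ n + j)))).card : ℕ) : ℝ) := by
          unfold E2
          exact_mod_cast Finset.card_biUnion_le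
    _ ≤ ∑ j ∈ h, (h.card * (Nat.log 2 x * (3 * x / 2 ^ i)) : ℝ) := Finset.sum_le_sum h2
    _ = _ := by rw [Finset.sum_const, nsmul_eq_mul]

theorem dvd_dist {p n j l : ℕ} (h1 : p ∣ n + j) (h2 : p ∣ n + l) : p ∣ Nat.dist j l := by
  unfold Nat.dist
  rcases le_total j l with h | h
  · have h3 : j - l = 0 := by omega
    have h4 : l - j = (n + l) - (n + j) := by omega
    rw [h3, zero_add, h4]
    exact Nat.dvd_sub h2 h1
  · have h3 : l - j = 0 := by omega
    have h4 : j - l = (n + j) - (n + l) := by omega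
    rw [h3, add_zero, h4]
    exact Nat.dvd_sub h1 h2

theorem t_AVGB : J_AVGB := by
  intro w h r x i hw hr hh hi _ T₀ hT₀
  have hkey : ∀ n ∈ (Icc 1 x).filter (fun n => bi h n = i),
      |w n * ∑ T₁ ∈ (pb i).powerset, cor ((T₀ ∪ T₁ : Finset ℕ) : Set ℕ) h n| ≤
        (if n ∈ E1 h x i ∪ E2 h x i then (2 : ℝ) ^ (pb i).card else 0) := by
    intro n hn
    rw [Finset.mem_filter, Finset.mem_Icc] at hn
    obtain ⟨⟨hn1, hnx⟩, hbi⟩ := hn
    split_ifs with hE
    · rw [abs_mul]
      calc |w n| * |∑ T₁ ∈ (pb i).powerset, cor ((T₀ ∪ T₁ : Finset ℕ) : Set ℕ) h n|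
          ≤ 1 * ∑ T₁ ∈ (pb i).powerset, |cor ((T₀ ∪ T₁ : Finset ℕ) : Set ℕ) h n| :=
            mul_le_mul (hw n) (Finset.abs_sum_le_sum_abs _ _) (abs_nonneg _) zero_le_one
        _ ≤ 1 * ∑ T₁ ∈ (pb i).powerset, (1 : ℝ) := by
            apply mul_le_mul_of_nonneg_left _ zero_le_one
            exact Finset.sum_le_sum (fun T₁ _ => abs_cor_le _ h n)
        _ = 2 ^ (pb i).card := by
            rw [Finset.sum_const, Finset.card_powerset, nsmul_eq_mul]
            push_cast
            ring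
    · obtain ⟨j, hj, p, hp, hpj⟩ := exists_prime hi hbi
      rw [Finset.mem_union, not_or] at hE
      have h2 : ¬ p ^ 2 ∣ n + j := by
        intro h3
        apply hE.1
        unfold E1
        rw [Finset.mem_biUnion]
        refine ⟨j, hj, ?_⟩
        rw [Finset.mem_biUnion]
        refine ⟨p, hp, ?_⟩
        rw [Finset.mem_filter, Finset.mem_Icc]
        exact ⟨⟨hn1, hnx⟩, h3⟩
      have h3 : ∀ l ∈ h, l ≠ j → ¬ p ∣ n + l := by
        intro l hl hlj h4
        apply hE.2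
        unfold E2
        rw [Finset.mem_biUnion]
        refine ⟨j, hj, ?_⟩
        rw [Finset.mem_biUnion]
        refine ⟨l, Finset.mem_erase.2 ⟨hlj, hl⟩, ?_⟩
        rw [Finset.mem_biUnion]
        refine ⟨p, ?_, ?_⟩
        · rw [Finset.mem_inter, Nat.mem_primeFactors]
          refine ⟨⟨(mem_pb.1 hp).2, dvd_dist hpj h4, ?_⟩, hp⟩
          intro h0
          exact hlj (Nat.eq_of_dist_eq_zero h0).symm
        · rw [Finset.mem_filter, Finset.mem_Icc]
          exact ⟨⟨hn1, hnx⟩, hpj⟩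
      rw [avg_zero h T₀ hT₀ hp hn1 hj hpj h2 h3, mul_zero, abs_zero]
  have hswap : ∑ T₁ ∈ (pb i).powerset, part w ((T₀ ∪ T₁ : Finset ℕ) : Set ℕ) h x i =
      ∑ n ∈ (Icc 1 x).filter (fun n => bi h n = i),
        w n * ∑ T₁ ∈ (pb i).powerset, cor ((T₀ ∪ T₁ : Finset ℕ) : Set ℕ) h n := by
    unfold part
    rw [Finset.sum_comm]
    apply Finset.sum_congr rfl
    intro n _
    rw [Finset.mul_sum]
  rw [hswap]
  have hP : (0 : ℝ) < 2 ^ (pb i).card := by positivity
  have h2i : (0 : ℝ) < 2 ^ i := by positivity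
  have hcr : (h.card : ℝ) ≤ r := by exact_mod_cast hr
  have hc0 : (0 : ℝ) ≤ h.card := Nat.cast_nonneg _
  have hX : (0 : ℝ) ≤ 3 * x / 2 ^ i := by positivity
  have hL : (0 : ℝ) ≤ Nat.log 2 x := Nat.cast_nonneg _
  have hr0 : (0 : ℝ) ≤ r := Nat.cast_nonneg _
  calc |∑ n ∈ (Icc 1 x).filter (fun n => bi h n = i),
        w n * ∑ T₁ ∈ (pb i).powerset, cor ((T₀ ∪ T₁ : Finset ℕ) : Set ℕ) h n|
      ≤ ∑ n ∈ (Icc 1 x).filter (fun n => bi h n = i),
        |w n * ∑ T₁ ∈ (pb i).powerset, cor ((T₀ ∪ T₁ : Finset ℕ) : Set ℕ) h n| :=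
          Finset.abs_sum_le_sum_abs _ _
    _ ≤ ∑ n ∈ (Icc 1 x).filter (fun n => bi h n = i),
        (if n ∈ E1 h x i ∪ E2 h x i then (2 : ℝ) ^ (pb i).card else 0) := Finset.sum_le_sum hkey
    _ = ((((Icc 1 x).filter (fun n => bi h n = i)).filter
        (fun n => n ∈ E1 h x i ∪ E2 h x i)).card : ℝ) * 2 ^ (pb i).card := by
          rw [← Finset.sum_filter, Finset.sum_const, nsmul_eq_mul]
    _ ≤ ((E1 h x i).card + (E2 h x i).card : ℝ) * 2 ^ (pb i).card := by
          apply mul_le_mul_of_nonneg_right _ hP.le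
          have h5 : (((Icc 1 x).filter (fun n => bi h n = i)).filter
              (fun n => n ∈ E1 h x i ∪ E2 h x i)).card ≤ (E1 h x i).card + (E2 h x i).card := by
            refine le_trans (Finset.card_le_card ?_) (Finset.card_union_le _ _)
            intro n hn
            exact (Finset.mem_filter.1 hn).2
          exact_mod_cast h5
    _ ≤ (r * (3 * x / 2 ^ i) + r * (r * (Nat.log 2 x * (3 * x / 2 ^ i)))) * 2 ^ (pb i).card := by
          apply mul_le_mul_of_nonneg_right _ hP.le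
          have h6 := card_E1 h x i hh
          have h7 := card_E2 h x i hh
          have h8 : (h.card : ℝ) * (3 * x / 2 ^ i) ≤ r * (3 * x / 2 ^ i) :=
            mul_le_mul_of_nonneg_right hcr hX
          have h9 : (h.card : ℝ) * (h.card * (Nat.log 2 x * (3 * x / 2 ^ i))) ≤
              r * (r * (Nat.log 2 x * (3 * x / 2 ^ i))) := by
            apply mul_le_mul hcr _ (by positivity) hr0
            exact mul_le_mul_of_nonneg_right hcr (by positivity)
          linarith
    _ ≤ 9 * (r + 1) ^ 2 * x * (Nat.log 2 x + 1) / 2 ^ i * 2 ^ (pb i).card := by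
          apply mul_le_mul_of_nonneg_right _ hP.le
          have h10 : 9 * ((r : ℝ) + 1) ^ 2 * x * (Nat.log 2 x + 1) / 2 ^ i =
              3 * (r + 1) ^ 2 * (Nat.log 2 x + 1) * (3 * x / 2 ^ i) := by ring
          have h11 : (r : ℝ) * (3 * x / 2 ^ i) + r * (r * (Nat.log 2 x * (3 * x / 2 ^ i))) =
              (r + r * r * Nat.log 2 x) * (3 * x / 2 ^ i) := by ring
          rw [h10, h11]
          apply mul_le_mul_of_nonneg_right _ hX
          nlinarith [mul_nonneg hr0 hL, mul_nonneg (mul_nonneg hr0 hr0) hL, mul_nonneg hr0 hr0]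

end Pool.Agent.Q190.FE
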