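import Pool.Agent.Q120.FE.Stm

/-!
# Project FE, job DEPB: dependence on the primes, bounded differences
-/

set_option autoImplicit false

namespace Pool.Agent.Q190.FE

open Finset Pool.Agent.Q120.ET Pool.Agent.Q120.GM Pool.Agent.Q120.TT Pool.Agent.Q120.FZ Pool.Agent.Q120.FE

theorem lam_congr {S S' : Set ℕ} {m : ℕ} (h : ∀ p ∈ m.primeFactors, (p ∈ S ↔ p ∈ S')) :
    lam S m = lam S' m := by
  unfold lam
  by_cases hm : m = 0
  · simp [hm]
  rw [if_neg hm, if_neg hm]
  congr 1
  apply List.map_congr_left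
  intro p hp
  have hp' : p ∈ m.primeFactors := by
    rw [Nat.mem_primeFactors_iff_mem_primeFactorsList]; exact hp
  unfold sg
  by_cases h1 : p ∈ S
  · rw [if_pos h1, if_pos ((h p hp').1 h1)]
  · rw [if_neg h1, if_neg (fun h2 => h1 ((h p hp').2 h2))]

theorem abs_sg (S : Set ℕ) (p : ℕ) : |sg S p| = 1 := by
  unfold sg
  split_ifs <;> simp

theorem abs_list_prod (S : Set ℕ) (l : List ℕ) : |(l.map (sg S)).prod| = 1 := by
  induction l with
  | nil => simp
  | cons a l ih => rw [List.map_cons, List.prod_cons, abs_mul, ih, abs_sg, one_mul]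

theorem abs_lam_le (S : Set ℕ) (m : ℕ) : |lam S m| ≤ 1 := by
  unfold lam
  split_ifs
  · simp
  · exact (abs_list_prod S _).le

theorem abs_cor_le (S : Set ℕ) (h : Finset ℕ) (n : ℕ) : |cor S h n| ≤ 1 := by
  unfold cor
  rw [Finset.abs_prod]
  exact Finset.prod_le_one (fun j _ => abs_nonneg _) (fun j _ => abs_lam_le S _)

theorem cor_congr {S S' : Set ℕ} {h : Finset ℕ} {n : ℕ}
    (hp : ∀ j ∈ h, ∀ p ∈ (n + j).primeFactors, (p ∈ S ↔ p ∈ S')) : cor S h n = cor S' h n := by
  unfold cor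
  exact Finset.prod_congr rfl (fun j hj => lam_congr (hp j hj))

theorem log_le_bi {h : Finset ℕ} {n j p : ℕ} (hj : j ∈ h) (hp : p ∈ (n + j).primeFactors) :
    Nat.log 2 p ≤ bi h n := by
  unfold bi
  exact le_trans (Finset.le_sup (f := Nat.log 2) hp)
    (Finset.le_sup (f := fun j => (n + j).primeFactors.sup (Nat.log 2)) hj)

/-- The number of multiples. -/
theorem count_dvd (d x j : ℕ) (hd : 0 < d) :
    ((((Icc 1 x).filter (fun n => d ∣ n + j)).card : ℕ) : ℝ) ≤ x / d + 1 := by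
  have h1 : ((Icc 1 x).filter (fun n => d ∣ n + j)).card + j / d ≤ (x + j) / d := by
    have h2 := Nat.Ioc_filter_dvd_card_eq_div (x + j) d
    have h3 := Nat.Ioc_filter_dvd_card_eq_div j d
    rw [← h2, ← h3]
    have h4 : (((Icc 1 x).filter (fun n => d ∣ n + j)).image (fun n => n + j)).card =
        ((Icc 1 x).filter (fun n => d ∣ n + j)).card :=
      Finset.card_image_of_injective _ (fun a b hab => by simpa using hab)
    rw [← h4, ← Finset.card_union_of_disjoint]
    · apply Finset.card_le_card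
      intro m hm
      rw [Finset.mem_union, Finset.mem_image, Finset.mem_filter, Finset.mem_Ioc] at hm
      rw [Finset.mem_filter, Finset.mem_Ioc]
      rcases hm with ⟨n, hn, rfl⟩ | ⟨⟨h5, h6⟩, h7⟩
      · rw [Finset.mem_filter, Finset.mem_Icc] at hn
        exact ⟨⟨by omega, by omega⟩, hn.2⟩
      · exact ⟨⟨h5, by omega⟩, h7⟩
    · rw [Finset.disjoint_left]
      intro m hm hm2
      rw [Finset.mem_image] at hm
      obtain ⟨n, hn, rfl⟩ := hm
      rw [Finset.mem_filter, Finset.mem_Icc] at hn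
      rw [Finset.mem_filter, Finset.mem_Ioc] at hm2
      omega
  have h5 : (x + j) / d ≤ x / d + j / d + 1 := by
    have h6 := Nat.div_add_mod x d
    have h7 := Nat.div_add_mod j d
    have h8 := Nat.mod_lt x hd
    have h9 := Nat.mod_lt j hd
    rw [Nat.div_le_iff_le_mul_add_pred hd]
    have : d * (x / d + j / d + 1) = d * (x / d) + d * (j / d) + d := by ring
    omega
  have h6 : ((Icc 1 x).filter (fun n => d ∣ n + j)).card ≤ x / d + 1 := by omega
  have h7 : ((x / d : ℕ) : ℝ) ≤ (x : ℝ) / d := Nat.cast_div_le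
  calc ((((Icc 1 x).filter (fun n => d ∣ n + j)).card : ℕ) : ℝ) ≤ ((x / d + 1 : ℕ) : ℝ) := by
        exact_mod_cast h6
    _ = ((x / d : ℕ) : ℝ) + 1 := by push_cast; ring
    _ ≤ _ := by linarith

theorem mem_pb {i p : ℕ} : p ∈ pb i ↔ (2 ^ i ≤ p ∧ p < 2 ^ (i + 1)) ∧ p.Prime := by
  unfold pb block
  rw [Finset.mem_filter, Finset.mem_Ico]

theorem diff_bound (w : ℕ → ℝ) (S : Set ℕ) (h : Finset ℕ) (r x i p : ℕ) (hw : ∀ n, |w n| ≤ 1)
    (hr : h.card ≤ r) (hp : p ∈ pb i) :
    |part w (insert p S) h x i - part w (S \ {p}) h x i| ≤ 2 * (r * ((x : ℝ) / 2 ^ i + 1)) := by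
  rw [mem_pb] at hp
  obtain ⟨⟨hp1, _⟩, hp3⟩ := hp
  have hp0 : 0 < p := hp3.pos
  have hpr : (2 : ℝ) ^ i ≤ p := by exact_mod_cast hp1
  have h2i : (0 : ℝ) < 2 ^ i := by positivity
  have hterm : ∀ n ∈ (Icc 1 x).filter (fun n => bi h n = i),
      |w n * cor (insert p S) h n - w n * cor (S \ {p}) h n| ≤
        ∑ j ∈ h, (if p ∣ n + j then (2 : ℝ) else 0) := by
    intro n hn
    by_cases hd : ∃ j ∈ h, p ∣ n + j
    · obtain ⟨j, hj, hdj⟩ := hd
      have h1 : (2 : ℝ) ≤ ∑ j ∈ h, (if p ∣ n + j then (2 : ℝ) else 0) := by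
        have h2 := Finset.single_le_sum (f := fun j => if p ∣ n + j then (2 : ℝ) else 0)
          (fun j _ => by split_ifs <;> norm_num) hj
        simp only [if_pos hdj] at h2
        exact h2
      refine le_trans ?_ h1
      rw [← mul_sub, abs_mul]
      have h3 : |cor (insert p S) h n - cor (S \ {p}) h n| ≤ 2 := by
        have h4 := abs_cor_le (insert p S) h n
        have h5 := abs_cor_le (S \ {p}) h n
        have h6 := abs_sub (cor (insert p S) h n) (cor (S \ {p}) h n)
        linarith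
      calc |w n| * |cor (insert p S) h n - cor (S \ {p}) h n| ≤ 1 * 2 :=
            mul_le_mul (hw n) h3 (abs_nonneg _) zero_le_one
        _ = 2 := by ring
    · push Not at hd
      have h1 : cor (insert p S) h n = cor (S \ {p}) h n := by
        apply cor_congr
        intro j hj q hq
        have hqp : q ≠ p := by
          rintro rfl
          exact hd j hj (Nat.dvd_of_mem_primeFactors hq)
        simp [hqp]
      rw [h1, sub_self, abs_zero]
      exact Finset.sum_nonneg (fun j _ => by split_ifs <;> norm_num)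
  have hcount : ∀ j ∈ h, ∑ n ∈ (Icc 1 x).filter (fun n => bi h n = i),
      (if p ∣ n + j then (2 : ℝ) else 0) ≤ 2 * ((x : ℝ) / 2 ^ i + 1) := by
    intro j _
    calc ∑ n ∈ (Icc 1 x).filter (fun n => bi h n = i), (if p ∣ n + j then (2 : ℝ) else 0)
        ≤ ∑ n ∈ Icc 1 x, (if p ∣ n + j then (2 : ℝ) else 0) :=
          Finset.sum_le_sum_of_subset_of_nonneg (Finset.filter_subset _ _)
            (fun n _ _ => by split_ifs <;> norm_num)
      _ = (((Icc 1 x).filter (fun n => p ∣ n + j)).card : ℝ) * 2 := by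
          rw [← Finset.sum_filter, Finset.sum_const, nsmul_eq_mul]
      _ ≤ ((x : ℝ) / p + 1) * 2 := by
          apply mul_le_mul_of_nonneg_right (count_dvd p x j hp0) (by norm_num)
      _ ≤ 2 * ((x : ℝ) / 2 ^ i + 1) := by
          have : (x : ℝ) / p ≤ x / 2 ^ i :=
            div_le_div_of_nonneg_left (Nat.cast_nonneg _) h2i hpr
          linarith
  unfold part
  rw [← Finset.sum_sub_distrib]
  calc |∑ n ∈ (Icc 1 x).filter (fun n => bi h n = i),
        (w n * cor (insert p S) h n - w n * cor (S \ {p}) h n)|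
      ≤ ∑ n ∈ (Icc 1 x).filter (fun n => bi h n = i),
        |w n * cor (insert p S) h n - w n * cor (S \ {p}) h n| := Finset.abs_sum_le_sum_abs _ _
    _ ≤ ∑ n ∈ (Icc 1 x).filter (fun n => bi h n = i),
        ∑ j ∈ h, (if p ∣ n + j then (2 : ℝ) else 0) := Finset.sum_le_sum hterm
    _ = ∑ j ∈ h, ∑ n ∈ (Icc 1 x).filter (fun n => bi h n = i),
        (if p ∣ n + j then (2 : ℝ) else 0) := Finset.sum_comm
    _ ≤ ∑ j ∈ h, 2 * ((x : ℝ) / 2 ^ i + 1) := Finset.sum_le_sum hcount
    _ = h.card * (2 * ((x : ℝ) / 2 ^ i + 1)) := by rw [Finset.sum_const, nsmul_eq_mul]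
    _ ≤ r * (2 * ((x : ℝ) / 2 ^ i + 1)) := by
        apply mul_le_mul_of_nonneg_right _ (by positivity)
        exact_mod_cast hr
    _ = 2 * (r * ((x : ℝ) / 2 ^ i + 1)) := by ring

theorem t_DEPB : J_DEPB := by
  refine ⟨?_, fun w S h r x i p hw hr hp => diff_bound w S h r x i p hw hr hp, abs_cor_le⟩
  intro S S' h n i hi hS
  apply cor_congr
  intro j hj p hp
  refine hS p (Nat.prime_of_mem_primeFactors hp) ?_
  have h1 := log_le_bi hj hp
  calc p < 2 ^ (Nat.log 2 p).succ := Nat.lt_pow_succ_log_self (by norm_num) p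
    _ ≤ 2 ^ (i + 1) := Nat.pow_le_pow_right (by norm_num) (by omega)

end Pool.Agent.Q190.FE
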